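import Pool.Agent.H97.Block.Main

/-!
Four configurations.
-/

namespace Pool.Agent.H97.Block

set_option maxRecDepth 100000

/-- the 10 points -/
def r10 : Fin 10 → Fin 3 → S := ![
  ![⟨2, 0⟩, ⟨0, 0⟩, ⟨1, 0⟩],
  ![⟨-1, 1⟩, ⟨2, 0⟩, ⟨2, 0⟩],
  ![⟨-1, -1⟩, ⟨-1, 1⟩, ⟨2, 0⟩],
  ![⟨-1, -1⟩, ⟨1, -1⟩, ⟨2, 0⟩],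
  ![⟨-1, 1⟩, ⟨-2, 0⟩, ⟨2, 0⟩],
  ![⟨-3, 1⟩, ⟨0, 0⟩, ⟨1, 0⟩],
  ![⟨4, -2⟩, ⟨-3, 1⟩, ⟨2, 0⟩],
  ![⟨-1, 1⟩, ⟨4, -2⟩, ⟨2, 0⟩],
  ![⟨-1, 1⟩, ⟨-4, 2⟩, ⟨2, 0⟩],
  ![⟨4, -2⟩, ⟨3, -1⟩, ⟨2, 0⟩]]

/-- the 6 blocking points -/
def b10 : Fin 6 → Fin 3 → S := ![
  ![⟨0, 0⟩, ⟨0, 0⟩, ⟨1, 0⟩],
  ![⟨0, 0⟩, ⟨1, 0⟩, ⟨0, 0⟩],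
  ![⟨-5, 1⟩, ⟨2, 0⟩, ⟨0, 0⟩],
  ![⟨-5, -3⟩, ⟨2, 0⟩, ⟨0, 0⟩],
  ![⟨5, 3⟩, ⟨2, 0⟩, ⟨0, 0⟩],
  ![⟨5, -1⟩, ⟨2, 0⟩, ⟨0, 0⟩]]

theorem f10 : f 10 ≤ 6 :=
  bound 10 6 r10 b10 (by decide +kernel) (by decide +kernel) (by decide +kernel) (by decide +kernel)
    (by decide +kernel) (by decide +kernel) (by decide +kernel)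

/-- the 14 points -/
def r14 : Fin 14 → Fin 3 → S := ![
  ![⟨1, 0⟩, ⟨1, 0⟩, ⟨-4, 0⟩],
  ![⟨1, 0⟩, ⟨0, 0⟩, ⟨-3, 0⟩],
  ![⟨1, 0⟩, ⟨-1, 0⟩, ⟨-4, 0⟩],
  ![⟨1, 0⟩, ⟨-1, 0⟩, ⟨-2, 0⟩],
  ![⟨2, 0⟩, ⟨-1, 0⟩, ⟨-7, 0⟩],
  ![⟨2, 0⟩, ⟨-1, 0⟩, ⟨-3, 0⟩],
  ![⟨1, 0⟩, ⟨1, 0⟩, ⟨-2, 0⟩],
  ![⟨1, 0⟩, ⟨0, 0⟩, ⟨-1, 0⟩],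
  ![⟨1, 0⟩, ⟨-2, 0⟩, ⟨-3, 0⟩],
  ![⟨1, 0⟩, ⟨-2, 0⟩, ⟨-1, 0⟩],
  ![⟨0, 0⟩, ⟨1, 0⟩, ⟨-3, 0⟩],
  ![⟨0, 0⟩, ⟨1, 0⟩, ⟨-1, 0⟩],
  ![⟨0, 0⟩, ⟨1, 0⟩, ⟨1, 0⟩],
  ![⟨0, 0⟩, ⟨0, 0⟩, ⟨-1, 0⟩]]

/-- the 9 blocking points -/
def b14 : Fin 9 → Fin 3 → S := ![
  ![⟨1, 0⟩, ⟨1, 0⟩, ⟨-6, 0⟩],
  ![⟨1, 0⟩, ⟨-1, 0⟩, ⟨-6, 0⟩],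
  ![⟨2, 0⟩, ⟨1, 0⟩, ⟨-5, 0⟩],
  ![⟨2, 0⟩, ⟨-1, 0⟩, ⟨-5, 0⟩],
  ![⟨2, 0⟩, ⟨-3, 0⟩, ⟨-5, 0⟩],
  ![⟨1, 0⟩, ⟨0, 0⟩, ⟨1, 0⟩],
  ![⟨1, 0⟩, ⟨-2, 0⟩, ⟨1, 0⟩],
  ![⟨0, 0⟩, ⟨3, 0⟩, ⟨-1, 0⟩],
  ![⟨0, 0⟩, ⟨1, 0⟩, ⟨0, 0⟩]]

theorem f14 : f 14 ≤ 9 :=
  bound 14 9 r14 b14 (by decide +kernel) (by decide +kernel) (by decide +kernel) (by decide +kernel)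
    (by decide +kernel) (by decide +kernel) (by decide +kernel)

/-- the 16 points -/
def r16 : Fin 16 → Fin 3 → S := ![
  ![⟨0, 0⟩, ⟨0, 0⟩, ⟨1, 0⟩],
  ![⟨2, 0⟩, ⟨0, 0⟩, ⟨1, 0⟩],
  ![⟨-1, 1⟩, ⟨2, 0⟩, ⟨2, 0⟩],
  ![⟨-1, -1⟩, ⟨-1, 1⟩, ⟨2, 0⟩],
  ![⟨-1, -1⟩, ⟨1, -1⟩, ⟨2, 0⟩],
  ![⟨-1, 1⟩, ⟨-2, 0⟩, ⟨2, 0⟩],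
  ![⟨2, -2⟩, ⟨0, 0⟩, ⟨1, 0⟩],
  ![⟨-3, 1⟩, ⟨1, -1⟩, ⟨1, 0⟩],
  ![⟨2, 0⟩, ⟨-3, 1⟩, ⟨1, 0⟩],
  ![⟨2, 0⟩, ⟨3, -1⟩, ⟨1, 0⟩],
  ![⟨-3, 1⟩, ⟨-1, 1⟩, ⟨1, 0⟩],
  ![⟨2, 2⟩, ⟨0, 0⟩, ⟨1, 0⟩],
  ![⟨2, 0⟩, ⟨1, 1⟩, ⟨1, 0⟩],
  ![⟨-3, -1⟩, ⟨2, 0⟩, ⟨1, 0⟩],
  ![⟨-3, -1⟩, ⟨-2, 0⟩, ⟨1, 0⟩],
  ![⟨2, 0⟩, ⟨-1, -1⟩, ⟨1, 0⟩]]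

/-- the 10 blocking points -/
def b16 : Fin 10 → Fin 3 → S := ![
  ![⟨0, 0⟩, ⟨1, 0⟩, ⟨0, 0⟩],
  ![⟨-5, 1⟩, ⟨2, 0⟩, ⟨0, 0⟩],
  ![⟨-5, -3⟩, ⟨2, 0⟩, ⟨0, 0⟩],
  ![⟨5, 3⟩, ⟨2, 0⟩, ⟨0, 0⟩],
  ![⟨5, -1⟩, ⟨2, 0⟩, ⟨0, 0⟩],
  ![⟨-4, 0⟩, ⟨0, 0⟩, ⟨3, 0⟩],
  ![⟨1, -1⟩, ⟨-2, 0⟩, ⟨3, 0⟩],
  ![⟨1, 1⟩, ⟨1, -1⟩, ⟨3, 0⟩],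
  ![⟨1, 1⟩, ⟨-1, 1⟩, ⟨3, 0⟩],
  ![⟨1, -1⟩, ⟨2, 0⟩, ⟨3, 0⟩]]

theorem f16 : f 16 ≤ 10 :=
  bound 16 10 r16 b16 (by decide +kernel) (by decide +kernel) (by decide +kernel) (by decide +kernel)
    (by decide +kernel) (by decide +kernel) (by decide +kernel)

/-- the 21 points -/
def r21 : Fin 21 → Fin 3 → S := ![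
  ![⟨0, 0⟩, ⟨0, 0⟩, ⟨1, 0⟩],
  ![⟨2, 0⟩, ⟨0, 0⟩, ⟨1, 0⟩],
  ![⟨-1, 1⟩, ⟨2, 0⟩, ⟨2, 0⟩],
  ![⟨-1, -1⟩, ⟨-1, 1⟩, ⟨2, 0⟩],
  ![⟨-1, -1⟩, ⟨1, -1⟩, ⟨2, 0⟩],
  ![⟨-1, 1⟩, ⟨-2, 0⟩, ⟨2, 0⟩],
  ![⟨-3, 1⟩, ⟨0, 0⟩, ⟨1, 0⟩],
  ![⟨4, -2⟩, ⟨-3, 1⟩, ⟨2, 0⟩],
  ![⟨-1, 1⟩, ⟨4, -2⟩, ⟨2, 0⟩],
  ![⟨-1, 1⟩, ⟨-4, 2⟩, ⟨2, 0⟩],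
  ![⟨4, -2⟩, ⟨3, -1⟩, ⟨2, 0⟩],
  ![⟨-1, -1⟩, ⟨0, 0⟩, ⟨2, 0⟩],
  ![⟨-2, 0⟩, ⟨-1, -1⟩, ⟨4, 0⟩],
  ![⟨3, 1⟩, ⟨-2, 0⟩, ⟨4, 0⟩],
  ![⟨3, 1⟩, ⟨2, 0⟩, ⟨4, 0⟩],
  ![⟨-2, 0⟩, ⟨1, 1⟩, ⟨4, 0⟩],
  ![⟨-3, -1⟩, ⟨0, 0⟩, ⟨1, 0⟩],
  ![⟨-1, -1⟩, ⟨-3, -1⟩, ⟨2, 0⟩],
  ![⟨4, 2⟩, ⟨-1, -1⟩, ⟨2, 0⟩],
  ![⟨4, 2⟩, ⟨1, 1⟩, ⟨2, 0⟩],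
  ![⟨-1, -1⟩, ⟨3, 1⟩, ⟨2, 0⟩]]

/-- the 15 blocking points -/
def b21 : Fin 15 → Fin 3 → S := ![
  ![⟨0, 0⟩, ⟨1, 0⟩, ⟨0, 0⟩],
  ![⟨-5, 1⟩, ⟨2, 0⟩, ⟨0, 0⟩],
  ![⟨-5, -3⟩, ⟨2, 0⟩, ⟨0, 0⟩],
  ![⟨5, 3⟩, ⟨2, 0⟩, ⟨0, 0⟩],
  ![⟨5, -1⟩, ⟨2, 0⟩, ⟨0, 0⟩],
  ![⟨7, -1⟩, ⟨0, 0⟩, ⟨11, 0⟩],
  ![⟨-6, 4⟩, ⟨7, -1⟩, ⟨22, 0⟩],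
  ![⟨-1, -3⟩, ⟨-6, 4⟩, ⟨22, 0⟩],
  ![⟨-1, -3⟩, ⟨6, -4⟩, ⟨22, 0⟩],
  ![⟨-6, 4⟩, ⟨-7, 1⟩, ⟨22, 0⟩],
  ![⟨1, 1⟩, ⟨0, 0⟩, ⟨3, 0⟩],
  ![⟨2, 0⟩, ⟨1, 1⟩, ⟨6, 0⟩],
  ![⟨-3, -1⟩, ⟨2, 0⟩, ⟨6, 0⟩],
  ![⟨-3, -1⟩, ⟨-2, 0⟩, ⟨6, 0⟩],
  ![⟨2, 0⟩, ⟨-1, -1⟩, ⟨6, 0⟩]]

theorem f21 : f 21 ≤ 15 :=
  bound 21 15 r21 b21 (by decide +kernel) (by decide +kernel) (by decide +kernel) (by decide +kernel)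
    (by decide +kernel) (by decide +kernel) (by decide +kernel)

end Pool.Agent.H97.Block
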