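import Mathlib

/-!
Blocking sets for the connecting lines of a finite set of points of the real plane.
-/

open scoped LinearAlgebra.Projectivization

namespace Pool.Agent.H97.Block

/-- the real projective plane -/
abbrev PP : Type := ℙ ℝ (Fin 3 → ℝ)

lemma vec_ne_zero (x : ℝ × ℝ) : (![x.1, x.2, 1] : Fin 3 → ℝ) ≠ 0 := by
  intro h
  have := congrFun h 2
  simp at this

/-- a point of the real plane as a point of the projective plane -/
noncomputable def emb (x : ℝ × ℝ) : PP := Projectivization.mk ℝ ![x.1, x.2, 1] (vec_ne_zero x)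

/-- the projective line with equation `u₀ X + u₁ Y + u₂ Z = 0` -/
def pline (u : Fin 3 → ℝ) : Set PP := {p | u 0 * p.rep 0 + u 1 * p.rep 1 + u 2 * p.rep 2 = 0}

/-- `B` is a blocking set for `R`: it is disjoint from `R`, and every projective line through two
distinct points of `R` contains a point of `B`. -/
def Blocks (R : Finset (ℝ × ℝ)) (B : Finset PP) : Prop :=
  (∀ x ∈ R, emb x ∉ B) ∧
  ∀ u : Fin 3 → ℝ, u ≠ 0 → (∃ x ∈ R, ∃ y ∈ R, x ≠ y ∧ emb x ∈ pline u ∧ emb y ∈ pline u) →
    ∃ b ∈ B, b ∈ pline u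

/-- the least size of a blocking set of `n` points of the plane which are not all on one line -/
noncomputable def f (n : ℕ) : ℕ :=
  sInf {k | ∃ R : Finset (ℝ × ℝ), R.card = n ∧ ¬ Collinear ℝ (R : Set (ℝ × ℝ)) ∧
    ∃ B : Finset PP, B.card = k ∧ Blocks R B}

end Pool.Agent.H97.Block
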