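import Pool.Agent.H97.Block.Defs

/-!
Blocking sets from configurations over the ring `ℤ[√5]`.
-/

open scoped LinearAlgebra.Projectivization

namespace Pool.Agent.H97.Block

/-- the ring of coordinates -/
abbrev S : Type := ℤ√5

/-- embedding into the reals -/
noncomputable def φ : S →+* ℝ := Zsqrtd.toReal (by norm_num : (0 : ℤ) ≤ 5)

lemma φ_inj : Function.Injective φ := by
  apply Zsqrtd.toReal_injective
  intro n h
  have h1 : n * n = 5 := h.symm
  have h2 : n.natAbs * n.natAbs = 5 := by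
    have := congrArg Int.natAbs h1
    rwa [Int.natAbs_mul] at this
  have h3 : n.natAbs ≤ 2 := by
    by_contra hcon
    push Not at hcon
    nlinarith
  interval_cases n.natAbs <;> omega

/-- determinant -/
def dt {K : Type} [CommRing K] (a b c : Fin 3 → K) : K :=
  (a 1 * b 2 - a 2 * b 1) * c 0 + (a 2 * b 0 - a 0 * b 2) * c 1 + (a 0 * b 1 - a 1 * b 0) * c 2

/-- two vectors are proportional -/
def Par {K : Type} [CommRing K] (a b : Fin 3 → K) : Prop :=
  a 1 * b 2 - a 2 * b 1 = 0 ∧ a 2 * b 0 - a 0 * b 2 = 0 ∧ a 0 * b 1 - a 1 * b 0 = 0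

instance : DecidableRel (Par (K := S)) := fun a b => by
  unfold Par
  infer_instance

/-- coordinates in the reals -/
noncomputable def fv (a : Fin 3 → S) : Fin 3 → ℝ := fun i => φ (a i)

lemma dt_fv (a b c : Fin 3 → S) : dt (fv a) (fv b) (fv c) = φ (dt a b c) := by
  simp [dt, fv]

lemma par_fv (a b : Fin 3 → S) : Par (fv a) (fv b) ↔ Par a b := by
  have h : ∀ x : S, φ x = 0 ↔ x = 0 := fun x => map_eq_zero_iff φ φ_inj
  unfold Par fv
  rw [← h, ← h, ← h]
  simp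

lemma fv_ne_zero {a : Fin 3 → S} (h : a ≠ 0) : fv a ≠ 0 := by
  intro h1
  apply h
  funext i
  have := congrFun h1 i
  exact (map_eq_zero_iff φ φ_inj).1 this

lemma par_of_mk_eq {v w : Fin 3 → ℝ} (hv : v ≠ 0) (hw : w ≠ 0)
    (h : Projectivization.mk ℝ v hv = Projectivization.mk ℝ w hw) : Par v w := by
  rw [Projectivization.mk_eq_mk_iff'] at h
  obtain ⟨a, ha⟩ := h
  subst ha
  simp only [Par, Pi.smul_apply, smul_eq_mul]
  refine ⟨by ring, by ring, by ring⟩

lemma mem_pline {u v : Fin 3 → ℝ} (hv : v ≠ 0) :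
    Projectivization.mk ℝ v hv ∈ pline u ↔ u 0 * v 0 + u 1 * v 1 + u 2 * v 2 = 0 := by
  obtain ⟨a, ha⟩ := Projectivization.exists_smul_eq_mk_rep ℝ v hv
  have ha0 : (a : ℝ) ≠ 0 := a.ne_zero
  unfold pline
  rw [Set.mem_ofPred_eq, ← ha]
  have : u 0 * (a • v) 0 + u 1 * (a • v) 1 + u 2 * (a • v) 2 =
      (a : ℝ) * (u 0 * v 0 + u 1 * v 1 + u 2 * v 2) := by
    simp only [Pi.smul_apply, Units.smul_def, smul_eq_mul]
    ring
  rw [this, mul_eq_zero]
  exact ⟨fun h => h.resolve_left ha0, Or.inr⟩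

lemma dt_zero_of_collinear {R : Set (ℝ × ℝ)} (h : Collinear ℝ R) {x y z : ℝ × ℝ} (hx : x ∈ R)
    (hy : y ∈ R) (hz : z ∈ R) :
    dt (![x.1, x.2, 1] : Fin 3 → ℝ) ![y.1, y.2, 1] ![z.1, z.2, 1] = 0 := by
  obtain ⟨v, hv⟩ := (collinear_iff_of_mem hx).1 h
  obtain ⟨s, hs⟩ := hv y hy
  obtain ⟨t, ht⟩ := hv z hz
  subst hs ht
  simp [dt]
  ring

theorem bound (n k : ℕ) (r : Fin n → Fin 3 → S) (b : Fin k → Fin 3 → S)
    (h0 : ∀ i, r i 2 ≠ 0) (hb : ∀ j, b j ≠ 0) (h1 : ∀ i j, i ≠ j → ¬ Par (r i) (r j))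
    (h2 : ∀ i j, ¬ Par (r i) (b j)) (h3 : ∀ i j, i ≠ j → ¬ Par (b i) (b j))
    (h4 : ∀ i j, i ≠ j → ∃ l, dt (r i) (r j) (b l) = 0)
    (h5 : ∃ i j l, dt (r i) (r j) (r l) ≠ 0) : f n ≤ k := by
  classical
  have hφ0 : ∀ i, φ (r i 2) ≠ 0 := fun i h => h0 i ((map_eq_zero_iff φ φ_inj).1 h)
  have hr0 : ∀ i, r i ≠ 0 := fun i h => h0 i (by rw [h]; rfl)
  -- the affine points
  let pt : Fin n → ℝ × ℝ := fun i => (φ (r i 0) / φ (r i 2), φ (r i 1) / φ (r i 2))
  have hemb : ∀ i, emb (pt i) = Projectivization.mk ℝ (fv (r i)) (fv_ne_zero (hr0 i)) := by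
    intro i
    rw [emb, Projectivization.mk_eq_mk_iff']
    refine ⟨(φ (r i 2))⁻¹, ?_⟩
    have := hφ0 i
    ext j
    fin_cases j
    · simp [fv, pt, div_eq_inv_mul]
    · simp [fv, pt, div_eq_inv_mul]
    · simp [fv, this]
  have hpt : Function.Injective pt := by
    intro i j hij
    by_contra hne
    have h := hemb i
    rw [hij, hemb j] at h
    exact h1 j i (Ne.symm hne) ((par_fv _ _).1 (par_of_mk_eq _ _ h))
  let B' : Fin k → PP := fun j => Projectivization.mk ℝ (fv (b j)) (fv_ne_zero (hb j))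
  have hB' : Function.Injective B' := by
    intro i j hij
    by_contra hne
    exact h3 i j hne ((par_fv _ _).1 (par_of_mk_eq _ _ hij))
  refine Nat.sInf_le ⟨Finset.univ.image pt, ?_, ?_, Finset.univ.image B', ?_, ?_, ?_⟩
  · rw [Finset.card_image_of_injective _ hpt, Finset.card_univ, Fintype.card_fin]
  · intro hcol
    obtain ⟨i, j, l, h⟩ := h5
    have hmem : ∀ i, pt i ∈ ((Finset.univ.image pt : Finset (ℝ × ℝ)) : Set (ℝ × ℝ)) := fun i => by
      rw [Finset.mem_coe]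
      exact Finset.mem_image_of_mem _ (Finset.mem_univ i)
    have hz := dt_zero_of_collinear hcol (hmem i) (hmem j) (hmem l)
    have e : dt (fv (r i)) (fv (r j)) (fv (r l)) = φ (r i 2) * φ (r j 2) * φ (r l 2) *
        dt (![(pt i).1, (pt i).2, 1] : Fin 3 → ℝ) ![(pt j).1, (pt j).2, 1]
          ![(pt l).1, (pt l).2, 1] := by
      have hi := hφ0 i
      have hj := hφ0 j
      have hl := hφ0 l
      simp only [dt, fv, pt, Matrix.cons_val_zero, Matrix.cons_val_one, Matrix.cons_val]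
      field_simp
    rw [hz, mul_zero, dt_fv] at e
    exact h ((map_eq_zero_iff φ φ_inj).1 e)
  · rw [Finset.card_image_of_injective _ hB', Finset.card_univ, Fintype.card_fin]
  · intro x hx hxB
    obtain ⟨i, -, rfl⟩ := Finset.mem_image.1 hx
    obtain ⟨j, -, hj⟩ := Finset.mem_image.1 hxB
    rw [hemb i] at hj
    exact h2 i j ((par_fv _ _).1 (par_of_mk_eq _ _ hj.symm))
  · rintro u hu ⟨x, hx, y, hy, hxy, hxu, hyu⟩
    obtain ⟨i, -, rfl⟩ := Finset.mem_image.1 hx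
    obtain ⟨j, -, rfl⟩ := Finset.mem_image.1 hy
    have hij : i ≠ j := fun h => hxy (by rw [h])
    obtain ⟨l, hl⟩ := h4 i j hij
    refine ⟨B' l, Finset.mem_image_of_mem _ (Finset.mem_univ l), ?_⟩
    rw [hemb i, mem_pline] at hxu
    rw [hemb j, mem_pline] at hyu
    rw [mem_pline]
    have hd : dt (fv (r i)) (fv (r j)) (fv (b l)) = 0 := by rw [dt_fv, hl, map_zero]
    have hp : ¬ Par (fv (r i)) (fv (r j)) := fun h => h1 i j hij ((par_fv _ _).1 h)
    set p := fv (r i)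
    set q := fv (r j)
    set c := fv (b l)
    unfold dt at hd
    by_contra hne
    apply hp
    refine ⟨?_, ?_, ?_⟩
    · have : (u 0 * c 0 + u 1 * c 1 + u 2 * c 2) * (p 1 * q 2 - p 2 * q 1) = 0 := by
        linear_combination u 0 * hd - (q 1 * c 2 - q 2 * c 1) * hxu - (c 1 * p 2 - c 2 * p 1) * hyu
      exact (mul_eq_zero.1 this).resolve_left hne
    · have : (u 0 * c 0 + u 1 * c 1 + u 2 * c 2) * (p 2 * q 0 - p 0 * q 2) = 0 := by
        linear_combination u 1 * hd - (q 2 * c 0 - q 0 * c 2) * hxu - (c 2 * p 0 - c 0 * p 2) * hyu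
      exact (mul_eq_zero.1 this).resolve_left hne
    · have : (u 0 * c 0 + u 1 * c 1 + u 2 * c 2) * (p 0 * q 1 - p 1 * q 0) = 0 := by
        linear_combination u 2 * hd - (q 0 * c 1 - q 1 * c 0) * hxu - (c 0 * p 1 - c 1 * p 0) * hyu
      exact (mul_eq_zero.1 this).resolve_left hne

end Pool.Agent.H97.Block
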